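import Pool.Agent.N996.BP.Ext2
import Pool.Agent.Y121.AHS.CDefs

/-!
# Admissible exponents: definitions
-/

open CategoryTheory AlgebraicGeometry

universe u

namespace Pool.Agent.K9h40.OCD

open Pool.Agent.H914 Pool.Agent.H914.VarClass Pool.Agent.H914.VarClass.Obj
  Pool.Agent.H914.WeilCohomology
open Pool.Agent.Y121.AHS Pool.Agent.N996.BP

section

variable {K A : Type} [Field K] [Algebra K ℂ] [Ring A] [Algebra K A]

/-- Families of complex subspaces of the extension of `A` to complex coefficients. -/
abbrev Bigr (K A : Type) [Field K] [Algebra K ℂ] [Ring A] [Algebra K A] : Type :=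
  ℤ → ℤ → Submodule ℂ (Ext K ℂ A)

/-- The element `x` is of type `(p, q)`. -/
def OfType (pq : Bigr K A) (p q : ℤ) (x : Ext K ℂ A) : Prop := x ∈ pq p q

/-- The decomposition `pq` is a Hodge structure with polarisation `ψ`: there are only nonzero
elements of type `(p, q)` if `p` and `q` are between `0` and `d`, the complex conjugation maps the
elements of type `(p, q)` to those of type `(q, p)`, the bilinear form `ψ(x, y)` vanishes for `x` of
type `(p, q)` and `y` of type `(r, s)` unless `(r, s) = (q, p)`, and `i ^ (p - q) ψ(x, x̄)` is a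
positive real number for all nonzero `x` of type `(p, q)`. -/
structure IsPol (h : IsRat K) (d : ℕ) (pq : Bigr K A) (ψ : Bil K A) : Prop where
  range : ∀ p q x, OfType pq p q x → x ≠ 0 → 0 ≤ p ∧ p ≤ d ∧ 0 ≤ q ∧ q ≤ d
  conj : ∀ p q x, OfType pq p q x → OfType pq q p (extConj h x)
  orth : ∀ p q r s x y, OfType pq p q x → OfType pq r s y → r ≠ q ∨ s ≠ p → extBil ψ x y = 0
  pos : ∀ p q x, OfType pq p q x → x ≠ 0 →
    ∃ r : ℝ, 0 < r ∧ Complex.I ^ (p - q) * extBil ψ x (extConj h x) = r

/-- The linear maps from `A` to `A`. -/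
abbrev Lin (K A : Type) [Field K] [Ring A] [Algebra K A] : Type := A →ₗ[K] A

/-- The map `f` is an endomorphism of the Hodge structure. -/
def IsHEnd (pq : Bigr K A) (f : Lin K A) : Prop :=
  ∀ p q x, OfType pq p q x → OfType pq p q (extMap K ℂ f x)

/-- The map `f` belongs to the centre of the algebra of the endomorphisms of the Hodge structure. -/
def IsCentral (pq : Bigr K A) (f : Lin K A) : Prop :=
  IsHEnd pq f ∧ ∀ g : Lin K A, IsHEnd pq g → ∀ c, f (g c) = g (f c)

/-- The complex linear map `F` is `(p - q) f` on the elements of type `(p, q)`. -/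
def IsWeighted (pq : Bigr K A) (f : Lin K A) (F : Ext K ℂ A →ₗ[ℂ] Ext K ℂ A) : Prop :=
  ∀ p q x, OfType pq p q x → F x = extSm K ℂ ((p - q : ℤ) : ℂ) (extMap K ℂ f x)

/-- The elements of the centre of the algebra of the endomorphisms of the Hodge structure are
self-adjoint for `ψ`: the centre is a product of totally real fields. -/
def RealCentre (pq : Bigr K A) (ψ : Bil K A) : Prop :=
  ∀ f, IsCentral pq f → ∀ c d, ψ (f c) d = ψ c (f d)

/-- The sum of all `(p - q) Tr(f | pq p q)` is zero for all elements `f` of the centre. (It means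
that the Hodge group is semisimple.) -/
def TraceFree (pq : Bigr K A) : Prop :=
  ∀ f, IsCentral pq f → ∀ F, IsWeighted pq f F → LinearMap.trace ℂ (Ext K ℂ A) F = 0

/-- The exponent `N` is admissible for the Hodge structure, which has a polarisation `ψ`: it is
the maximum of `4` and `t` if the centre is a product of totally real fields, the maximum of `4` and
`t ^ 2 / 4` if the Hodge group is semisimple, and the maximum of `4` and `(d t) ^ t` in general. -/
def Admissible (h : IsRat K) (d : ℕ) (pq : Bigr K A) (t N : ℕ) : Prop :=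
  ∃ ψ, IsPol h d pq ψ ∧ ((RealCentre pq ψ ∧ N = max 4 t) ∨ (TraceFree pq ∧ N = max 4 (t ^ 2 / 4)) ∨
    N = max 4 ((d * t) ^ t))

/-- The dimension of the subspace spanned by a set. -/
noncomputable def rk (K : Type) {A : Type} [Field K] [Ring A] [Algebra K A] (S : Set A) : ℕ :=
  Set.finrank K S

/-- The codimension of the subspace spanned by a set. -/
noncomputable def cork (K : Type) {A : Type} [Field K] [Ring A] [Algebra K A] (S : Set A) : ℕ :=
  Module.finrank K A - rk K S

end

variable {k : Type u} [Field k] {𝒱 : VarClass k} {ops : CycleOps 𝒱}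

/-- The Hodge classes on `X`. -/
def hodgeSet (T : HodgeTheory ops) (X : 𝒱.Obj) : Set (T.W.H X) := {c | ∃ j, IsHodge T X j c}

/-- The number of linearly independent Hodge classes on `X`. -/
noncomputable def hodgeNum (T : HodgeTheory ops) (X : 𝒱.Obj) : ℕ := rk T.W.K (hodgeSet T X)

/-- The number of the transcendental classes: the codimension of the subspace of `H(X)` spanned by
the Hodge classes. -/
noncomputable def transNum (T : HodgeTheory ops) (X : 𝒱.Obj) : ℕ := cork T.W.K (hodgeSet T X)

/-- All Hodge classes on `Z` are absolutely Hodge. -/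
def AllAbsolute {T : HodgeTheory ops} (D : Full.Conjugates T) (Z : 𝒱.Obj) : Prop :=
  ∀ j c, IsHodge T Z j c → Full.IsAbsHodge D Z j c

end Pool.Agent.K9h40.OCD
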