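import Pool.Agent.Y121.AH.HR

/-!
# One class on a product which determines given classes on a factor
-/

set_option linter.unusedSectionVars false

open CategoryTheory AlgebraicGeometry

universe u

namespace Pool.Agent.K9h40.OCD

open Module
open Pool.Agent.H914 Pool.Agent.H914.VarClass Pool.Agent.H914.VarClass.Obj
  Pool.Agent.H914.WeilCohomology
open Pool.Agent.Y133.Half Pool.Agent.W458.MF Pool.Agent.W536.RR Pool.Agent.H281R3.HT

variable {k : Type u} [Field k] {𝒱 : VarClass k} {ops : CycleOps 𝒱}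
  {W : WeilCohomology.{u, 0} ops}

/-- The projection to the first factors. -/
noncomputable def q₁ (X : 𝒱.Obj) (n : ℕ) : ∀ m : ℕ, pw X (n + m + 1) ⟶ pw X n
  | 0 => fst (pw X n) X
  | m + 1 => fst (pw X (n + m + 1)) X ≫ q₁ X n m

/-- The projection to the last factors. -/
noncomputable def q₂ (X : 𝒱.Obj) (n : ℕ) : ∀ m : ℕ, pw X (n + m + 1) ⟶ pw X m
  | 0 => snd (pw X n) X
  | m + 1 => Obj.lift (fst (pw X (n + m + 1)) X ≫ q₂ X n m) (snd (pw X (n + m + 1)) X)

lemma tr_step {P A B : 𝒱.Obj} (u : P ⟶ A) (v : P ⟶ B)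
    (h : ∀ (a : W.H A) (b : W.H B), W.tr P (W.map u a * W.map v b) = W.tr A a * W.tr B b)
    (X : 𝒱.Obj) (a : W.H A) (b : W.H (B.prod X)) :
    W.tr (P.prod X) (W.map (fst P X ≫ u) a * W.map (Obj.lift (fst P X ≫ v) (snd P X)) b) =
      W.tr A a * W.tr (B.prod X) b := by
  refine W.kunneth_induction (X := B) (Y := X) (p := fun b =>
    W.tr (P.prod X) (W.map (fst P X ≫ u) a * W.map (Obj.lift (fst P X ≫ v) (snd P X)) b) =
      W.tr A a * W.tr (B.prod X) b) ?_ ?_ b
  · intro c d hc hd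
    rw [map_add, mul_add, map_add, hc, hd, map_add, mul_add]
  · intro i j c _ d _
    rw [map_mul (W.map (Obj.lift (fst P X ≫ v) (snd P X))), ← W.map_comp, ← W.map_comp,
      Obj.lift_fst, Obj.lift_snd, W.map_comp, W.map_comp, ← mul_assoc,
      ← map_mul (W.map (fst P X)), W.tr_prod, W.tr_prod, h, mul_assoc]

lemma tr_q (X : 𝒱.Obj) (n : ℕ) : ∀ (m : ℕ) (a : W.H (pw X n)) (b : W.H (pw X m)),
    W.tr (pw X (n + m + 1)) (W.map (q₁ X n m) a * W.map (q₂ X n m) b) =
      W.tr (pw X n) a * W.tr (pw X m) b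
  | 0, a, b => W.tr_prod a b
  | m + 1, a, b => tr_step (q₁ X n m) (q₂ X n m) (tr_q X n m) X a b

lemma dim_pw (X : 𝒱.Obj) : ∀ n : ℕ, (pw X n).dim = (n + 1) * X.dim
  | 0 => by rw [zero_add, one_mul]; rfl
  | n + 1 => by
    have h : (pw X (n + 1)).dim = (pw X n).dim + X.dim := rfl
    rw [h, dim_pw X n]; ring

/-- Two projections `q` and `r` of `P` behave like the projections of a product. -/
structure Fac (W : WeilCohomology.{u, 0} ops) {P A B : 𝒱.Obj} (q : P ⟶ A) (r : P ⟶ B) : Prop where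
  dim : P.dim = A.dim + B.dim
  tr : ∀ (a : W.H A) (b : W.H B), W.tr P (W.map q a * W.map r b) = W.tr A a * W.tr B b

lemma fac_q (X : 𝒱.Obj) (n m : ℕ) : Fac W (q₁ X n m) (q₂ X n m) :=
  ⟨by rw [dim_pw, dim_pw, dim_pw]; ring, tr_q X n m⟩

lemma Fac.push {P A B : 𝒱.Obj} {q : P ⟶ A} {r : P ⟶ B} (h : Fac W q r) (a : W.H A) {b : W.H B}
    {j : ℕ} (hb : b ∈ W.gr B (2 * j)) :
    W.push q (W.map q a * W.map r b) = W.tr B b • a := by
  apply W.tr_ext
  intro c
  rw [W.tr_push, mul_assoc, W.even_comm (W.map_mem r hb), ← mul_assoc, ← map_mul, h.tr,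
    smul_mul_assoc, map_smul, smul_eq_mul, mul_comm]

lemma pow_mem_gr {Y : 𝒱.Obj} {y : W.H Y} (hy : y ∈ W.gr Y (2 * 1)) (n : ℕ) :
    y ^ n ∈ W.gr Y (2 * n) := by
  induction n with
  | zero => rw [pow_zero]; exact W.one_mem Y
  | succ n ih =>
    rw [pow_succ]
    have := W.mul_mem ih hy
    rwa [← mul_add] at this

lemma cp_pow {Q : ClassPred W} {Y : 𝒱.Obj} {y : W.H Y} (hy : Q.P Y 1 y) (n : ℕ) :
    Q.P Y n (y ^ n) := by
  induction n with
  | zero => rw [pow_zero, ← W.cl_fund Y]; exact Q.cl Y.V.fundCycle_mem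
  | succ n ih => rw [pow_succ]; exact Q.mul ih hy

section Block

variable {P A B Y Z : 𝒱.Obj} (q : P ⟶ A) (r : P ⟶ B) (s : B ⟶ Y) (t : B ⟶ Z) (y : W.H Y)
  (z : W.H Z)

/-- The class on `B` given by powers of `y` and `z`. -/
noncomputable def yz (m n : ℕ) : W.H B := W.map s (y ^ m) * W.map t (z ^ n)

lemma yz_mul (hz : z ∈ W.gr Z (2 * 1)) (m n m' n' : ℕ) :
    yz s t y z m n * yz s t y z m' n' = yz s t y z (m + m') (n + n') := by
  have h1 : W.map t (z ^ n) * W.map s (y ^ m') = W.map s (y ^ m') * W.map t (z ^ n) :=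
    W.even_comm (W.map_mem t (pow_mem_gr hz n)) _
  rw [yz, yz, yz, mul_assoc, ← mul_assoc (W.map t (z ^ n)), h1, pow_add, pow_add, map_mul, map_mul,
    mul_assoc, mul_assoc]

lemma yz_P {Q : ClassPred W} (hy : Q.P Y 1 y) (hz : Q.P Z 1 z) (m n : ℕ) :
    Q.P B (m + n) (yz s t y z m n) :=
  Q.mul (Q.map s (cp_pow hy m)) (Q.map t (cp_pow hz n))

variable {R : ℕ} (α : Fin R → W.H A) (j : Fin R → ℕ)

/-- The class on `P`. -/
noncomputable def one : W.H P :=
  ∑ i, W.map q (α i) * W.map r (yz s t y z i (Z.dim - j i - i))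

lemma one_P {Q : ClassPred W} (hy : Q.P Y 1 y) (hz : Q.P Z 1 z) (hα : ∀ i, Q.P A (j i) (α i))
    (hj : ∀ i, j i + i ≤ Z.dim) : Q.P P Z.dim (one q r s t y z α j) := by
  rw [one]
  refine Finset.sum_induction _ (Q.P P Z.dim) (fun _ _ => Q.add) Q.zero fun i _ => ?_
  have h := Q.mul (Q.map q (hα i)) (Q.map r (yz_P s t y z hy hz i (Z.dim - j i - i)))
  have h2 : j i + ((i : ℕ) + (Z.dim - j i - i)) = Z.dim := by have := hj i; omega
  rwa [h2] at h

/-- The given classes are obtained from the one class. -/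
lemma one_inv (hf : Fac W q r) (hg : Fac W s t) (hd : Z.dim = A.dim + Y.dim)
    {Q : ClassPred W} (hy : Q.P Y 1 y) (hz : Q.P Z 1 z) (hy' : W.tr Y (y ^ Y.dim) ≠ 0)
    (hz' : W.tr Z (z ^ Z.dim) ≠ 0) (hj : ∀ i, j i ≤ A.dim) (hR : ∀ i : Fin R, (i : ℕ) ≤ Y.dim)
    (h : Q.P P Z.dim (one q r s t y z α j)) (i : Fin R) : Q.P A (j i) (α i) := by
  have gy := Q.gr hy
  have gz := Q.gr hz
  have hP : P.dim = A.dim + (Y.dim + Z.dim) := by rw [hf.dim, hg.dim]
  -- multiplication by the dual class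
  have h1 : Q.P P (Z.dim + (Y.dim - i + (j i + i)))
      (one q r s t y z α j * W.map r (yz s t y z (Y.dim - i) (j i + i))) :=
    Q.mul h (Q.map r (yz_P s t y z hy hz _ _))
  have h2 : Q.P A (j i)
      (W.push q (one q r s t y z α j * W.map r (yz s t y z (Y.dim - i) (j i + i)))) := by
    refine Q.push q ?_ h1
    have := hR i
    omega
  have h3 : W.push q (one q r s t y z α j * W.map r (yz s t y z (Y.dim - i) (j i + i))) =
      (W.tr Y (y ^ Y.dim) * W.tr Z (z ^ Z.dim)) • α i := by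
    rw [one, Finset.sum_mul, map_sum]
    have h4 : ∀ l : Fin R, W.push q (W.map q (α l) * W.map r (yz s t y z l (Z.dim - j l - l)) *
        W.map r (yz s t y z (Y.dim - i) (j i + i))) =
        if l = i then (W.tr Y (y ^ Y.dim) * W.tr Z (z ^ Z.dim)) • α i else 0 := by
      intro l
      rw [mul_assoc, ← map_mul, yz_mul s t y z gz,
        hf.push (α l) (Q.gr (yz_P s t y z hy hz _ _)), yz, hg.tr]
      split_ifs with hl
      · subst hl
        have e1 : (l : ℕ) + (Y.dim - l) = Y.dim := by have := hR l; omega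
        have e2 : Z.dim - j l - l + (j l + l) = Z.dim := by
          have := hR l; have := hj l; omega
        rw [e1, e2]
      · have e1 : W.tr Y (y ^ ((l : ℕ) + (Y.dim - i))) = 0 := by
          refine W.tr_eq_zero (pow_mem_gr gy _) ?_
          have := hR i
          have h5 : (l : ℕ) ≠ i := fun h => hl (Fin.ext h)
          omega
        rw [e1, zero_mul, zero_smul]
    rw [Finset.sum_congr rfl fun l _ => h4 l, Finset.sum_ite_eq' Finset.univ i]
    simp
  rw [h3] at h2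
  have h5 := Q.smul (W.tr Y (y ^ Y.dim) * W.tr Z (z ^ Z.dim))⁻¹ h2
  rwa [smul_smul, inv_mul_cancel₀ (mul_ne_zero hy' hz'), one_smul] at h5

end Block

end Pool.Agent.K9h40.OCD
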