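import Pool.Agent.K9h40.OPD.Fin
import Pool.Agent.K9h40.OCD.Geo

/-!
# One class decides
-/

set_option linter.unusedSectionVars false

open CategoryTheory AlgebraicGeometry

universe u

namespace Pool.Agent.K9h40.OCD

open Module
open Pool.Agent.H914 Pool.Agent.H914.VarClass Pool.Agent.H914.VarClass.Obj
  Pool.Agent.H914.WeilCohomology
open Pool.Agent.Y121 Pool.Agent.Y121.AHS Pool.Agent.Y121.AHS.Full
open Pool.Agent.Y133.Half (pw ClassPred)
open Pool.Agent.Y121.AH (hodgePred absPred)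
open Pool.Agent.K9h40.FP4 Pool.Agent.K9h40.OPD

variable {k : Type u} [Field k] {𝒱 : VarClass k} {ops : CycleOps 𝒱}

lemma nt_hom {W : WeilCohomology.{u, 0} ops} {X Y : 𝒱.Obj} (f : X ⟶ Y)
    (h : (1 : W.H X) ≠ 0) : (1 : W.H Y) ≠ 0 := by
  intro h1
  apply h
  rw [← map_one (W.map f), h1, map_zero]

/-- The diagonal `X → X ^ (n + 1)`. -/
noncomputable def dg (X : 𝒱.Obj) : ∀ n : ℕ, X ⟶ pw X n
  | 0 => 𝟙 X
  | n + 1 => Obj.lift (dg X n) (𝟙 X)

/-- A projection `X ^ (n + 1) → X`. -/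
noncomputable def lp (X : 𝒱.Obj) : ∀ n : ℕ, pw X n ⟶ X
  | 0 => 𝟙 X
  | n + 1 => snd (pw X n) X

lemma polar_tr (T : AHS.HodgeTheory ops) (Y : 𝒱.Obj) (hY : (1 : T.W.H Y) ≠ 0) :
    ∃ E : Y.Cycles, Y.IsCyc 1 E ∧ T.W.tr Y (T.W.cl Y E ^ Y.dim) ≠ 0 := by
  obtain ⟨E, hE⟩ := (toH T).dec.polar Y
  refine ⟨E, hE.1, ?_⟩
  have h1 : (1 : T.W.H Y) ∈ T.W.gr Y (2 * 0) := T.W.one_mem Y
  have h2 : AH.IsHodge (toH T) Y 0 (1 : T.W.H Y) := by
    rw [← T.W.cl_fund Y]; exact AH.IsHodge.cl (T := toH T) Y.V.fundCycle_mem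
  have h3 : T.W.cl Y E ^ (Y.dim - 2 * 0 + 1) * (1 : T.W.H Y) = 0 := by
    have h4 : T.W.cl Y E ^ (Y.dim - 2 * 0 + 1) ∈ T.W.gr Y (2 * (Y.dim - 2 * 0 + 1)) :=
      pow_mem_gr (T.W.cl_mem hE.1) _
    rw [T.W.gr_eq_bot Y _ (by omega)] at h4
    rw [(Submodule.mem_bot _).1 h4, zero_mul]
  obtain ⟨r, hr, h4⟩ := hE.2.2 0 (by omega) 1 h1 h2.2 h3 hY
  have h5 : T.W.tr Y (T.W.cl Y E ^ Y.dim) = (r : T.W.K) := by
    have h6 : (-1 : T.W.K) ^ 0 * T.W.tr Y (T.W.cl Y E ^ (Y.dim - 2 * 0) * 1 * 1) = (r : T.W.K) := h4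
    rw [pow_zero, one_mul, mul_one, mul_one, mul_zero, Nat.sub_zero] at h6
    exact h6
  rw [h5]
  exact_mod_cast hr.ne'

/-- The trivial cases. -/
lemma trivial_case {T : AHS.HodgeTheory ops} (D : Full.Conjugates T) (X : 𝒱.Obj)
    (h : X.dim = 0 ∨ ¬ (1 : T.W.H X) ≠ 0) (n : ℕ) : AllAbsolute D (pw X n) := by
  intro j c hc
  have h0 : ∀ j, AH.IsAbsHodge (toD D) (pw X n) j (0 : T.W.H (pw X n)) :=
    fun j => (absPred (toD D)).zero
  rcases h with h | h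
  · have hd : (pw X n).dim = 0 := by rw [dim_pw, h, mul_zero]
    by_cases hj : j = 0
    · subst hj
      have h1 : c ∈ T.W.gr (pw X n) 0 := hc.1
      rw [T.W.gr_zero, Submodule.mem_span_singleton] at h1
      obtain ⟨r, rfl⟩ := h1
      have h2 : AH.IsAbsHodge (toD D) (pw X n) 0 (T.W.cl (pw X n) (pw X n).V.fundCycle) :=
        (absPred (toD D)).cl (pw X n).V.fundCycle_mem
      rw [T.W.cl_fund] at h2
      exact isAbsHodge_iff.1 ((absPred (toD D)).smul r h2)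
    · have h1 := hc.1
      rw [T.W.gr_eq_bot (pw X n) (2 * j) (by omega), Submodule.mem_bot] at h1
      rw [h1]
      exact isAbsHodge_iff.1 (h0 j)
  · have h1 : (1 : T.W.H (pw X n)) = 0 := by
      by_contra h2
      exact h (nt_hom (lp X n) h2)
    have h2 : c = 0 := by rw [← mul_one c, h1, mul_zero]
    rw [h2]
    exact isAbsHodge_iff.1 (h0 j)

/-- The main construction. -/
theorem one_class (T : AHS.HodgeTheory ops) (X : 𝒱.Obj) (n M : ℕ)
    (hM : M = n + (hodgeDim T (pw X n) + (n + hodgeDim T (pw X n) + 1) + 1) + 1) :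
    ∃ c, IsHodge T (pw X M) ((n + hodgeDim T (pw X n) + 1 + 1) * X.dim) c ∧
      ∀ D : Full.Conjugates T,
        Full.IsAbsHodge D (pw X M) ((n + hodgeDim T (pw X n) + 1 + 1) * X.dim) c ↔
          AllAbsolute D (pw X n) := by
  subst hM
  set h := hodgeDim T (pw X n) with hh
  by_cases h0 : X.dim = 0 ∨ ¬ (1 : T.W.H X) ≠ 0
  · exact ⟨0, (hodgePred (toH T)).zero, fun D => ⟨fun _ => trivial_case D X h0 n, fun _ =>
      isAbsHodge_iff.1 (absPred (toD D)).zero⟩⟩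
  rw [not_or, not_not] at h0
  obtain ⟨hd, hX⟩ := h0
  obtain ⟨y, hy, hy'⟩ := polar_tr T (pw X h) (nt_hom (dg X h) hX)
  obtain ⟨z, hz, hz'⟩ := polar_tr T (pw X (n + h + 1)) (nt_hom (dg X (n + h + 1)) hX)
  let S : Set (T.W.H (pw X n)) := {c | ∃ j, IsHodge T (pw X n) j c}
  obtain ⟨f, hf, hs, hl⟩ := Submodule.exists_fun_fin_finrank_span_eq T.W.K S
  have hR : finrank T.W.K (Submodule.span T.W.K S) = h := rfl
  choose j hj using hf
  have hjA : ∀ i, j i ≤ (pw X n).dim := by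
    intro i
    by_contra hc
    have h1 := (hj i).1
    rw [T.W.gr_eq_bot (pw X n) (2 * j i) (by omega), Submodule.mem_bot] at h1
    exact hl.ne_zero i h1
  have hiY : ∀ i : Fin (finrank T.W.K (Submodule.span T.W.K S)), (i : ℕ) ≤ (pw X h).dim := by
    intro i
    have h1 : (i : ℕ) < h := by rw [← hR]; exact i.2
    rw [dim_pw]
    have h2 : 1 ≤ X.dim := by omega
    nlinarith
  have hZ : (pw X (n + h + 1)).dim = (n + h + 1 + 1) * X.dim := dim_pw X (n + h + 1)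
  have hd' : (pw X (n + h + 1)).dim = (pw X n).dim + (pw X h).dim := by
    rw [dim_pw, dim_pw, dim_pw]; ring
  have hjZ : ∀ i : Fin (finrank T.W.K (Submodule.span T.W.K S)),
      j i + i ≤ (pw X (n + h + 1)).dim := by
    intro i
    have h1 := hjA i
    have h2 := hiY i
    omega
  have hy1 : ∀ Q : ClassPred T.W, Q.P (pw X h) 1 (T.W.cl _ y) := fun Q => Q.cl hy
  have hz1 : ∀ Q : ClassPred T.W, Q.P (pw X (n + h + 1)) 1 (T.W.cl _ z) := fun Q => Q.cl hz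
  rw [← hZ]
  refine ⟨one (q₁ X n (h + (n + h + 1) + 1)) (q₂ X n (h + (n + h + 1) + 1))
    (q₁ X h (n + h + 1)) (q₂ X h (n + h + 1)) (T.W.cl _ y) (T.W.cl _ z) f j, ?_,
    fun D => ⟨fun hD => ?_, fun hD => ?_⟩⟩
  · exact one_P (Q := hodgePred (toH T)) _ _ _ _ _ _ f j (hy1 _) (hz1 _) hj hjZ
  · have key : ∀ i, AH.IsAbsHodge (toD D) (pw X n) (j i) (f i) := fun i =>
      one_inv (Q := absPred (toD D)) _ _ _ _ _ _ f j (fac_q X n _) (fac_q X h _) hd' (hy1 _)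
        (hz1 _) hy' hz' hjA hiY (isAbsHodge_iff.2 hD) i
    intro l c hc
    have h1 : c ∈ Submodule.span T.W.K S := Submodule.subset_span ⟨l, hc⟩
    rw [← hs] at h1
    have h2 : Submodule.span T.W.K (Set.range f) ≤ (absPred (toD D)).sp (pw X n) := by
      rw [Submodule.span_le]
      rintro _ ⟨i, rfl⟩
      exact ClassPred.sp_of (Q := absPred (toD D)) (key i)
    exact isAbsHodge_iff.1 (ClassPred.of_sp (Q := absPred (toD D)) (h2 h1) hc.1)
  · exact isAbsHodge_iff.1 (one_P (Q := absPred (toD D)) _ _ _ _ _ _ f j (hy1 _) (hz1 _)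
      (fun i => isAbsHodge_iff.2 (hD _ _ (hj i))) hjZ)

/-- **One class decides.** -/
theorem one_decides (T : AHS.HodgeTheory ops) (X : 𝒱.Obj) {N : ℕ}
    (hN : Admissible T.rat X.dim (T.pq X) (transDim T X) N) :
    ∃ c, IsHodge T (pw X (2 * (N + hodgeDim T (pw X (N - 1))) + 1))
        ((N + hodgeDim T (pw X (N - 1)) + 1) * X.dim) c ∧
      ∀ D : Full.Conjugates T,
        (AllAbsolute D (pw X (N - 1)) →
          Full.IsAbsHodge D (pw X (2 * (N + hodgeDim T (pw X (N - 1))) + 1))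
            ((N + hodgeDim T (pw X (N - 1)) + 1) * X.dim) c) ∧
        (Full.IsAbsHodge D (pw X (2 * (N + hodgeDim T (pw X (N - 1))) + 1))
          ((N + hodgeDim T (pw X (N - 1)) + 1) * X.dim) c → ∀ n, AllAbsolute D (pw X n)) := by
  have h4 : 1 ≤ N := by
    obtain ⟨ψ, -, h⟩ := hN
    rcases h with ⟨-, h⟩ | ⟨-, h⟩ | h <;> rw [h] <;>
      exact le_trans (by norm_num) (le_max_left _ _)
  obtain ⟨m, rfl⟩ : ∃ m, N = m + 1 := ⟨N - 1, by omega⟩
  rw [Nat.add_sub_cancel]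
  obtain ⟨c, hc, h⟩ := one_class T X m (2 * (m + 1 + hodgeDim T (pw X m)) + 1) (by ring)
  have e : m + 1 + hodgeDim T (pw X m) + 1 = m + hodgeDim T (pw X m) + 1 + 1 := by ring
  rw [e]
  exact ⟨c, hc, fun D => ⟨(h D).2, fun hD n => decides T D X hN ((h D).1 hD) n⟩⟩

end Pool.Agent.K9h40.OCD
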