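import Pool.Agent.K9h40.OCD.Fin
import Pool.Agent.K9h40.OCD.Defs

/-!
# One class decides
-/

set_option linter.unusedSectionVars false

open CategoryTheory AlgebraicGeometry

universe u

namespace Pool.Agent.K9h40.OCD

open Pool.Agent.H914 Pool.Agent.H914.VarClass Pool.Agent.H914.VarClass.Obj
  Pool.Agent.H914.WeilCohomology
open Pool.Agent.Y121.AHS
open Pool.Agent.Y133.Half (pw)

variable {k : Type u} [Field k] {𝒱 : VarClass k} {ops : CycleOps 𝒱}

lemma Admissible.to {T : HodgeTheory ops} {X : 𝒱.Obj} {N : ℕ}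
    (h : Admissible T.rat X.dim (T.pq X) (transNum T X) N) :
    OPD.Admissible T.rat X.dim (T.pq X) (OPD.transDim T X) N := by
  obtain ⟨ψ, hψ, hc⟩ := h
  exact ⟨ψ, ⟨hψ.range, hψ.conj, hψ.orth, hψ.pos⟩, hc⟩

/-- **One class decides.** -/
theorem one_tfae (T : HodgeTheory ops) (X : 𝒱.Obj) (N h : ℕ)
    (hN : Admissible T.rat X.dim (T.pq X) (transNum T X) N)
    (hh : h = hodgeNum T (pw X (N - 1))) :
    ∃ c, IsHodge T (pw X (2 * (N + h) + 1)) ((N + h + 1) * X.dim) c ∧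
      ∀ D : Full.Conjugates T, [AllAbsolute D (pw X (N - 1)),
        Full.IsAbsHodge D _ ((N + h + 1) * X.dim) c, ∀ n, AllAbsolute D (pw X n)].TFAE := by
  subst hh
  obtain ⟨c, hc, h⟩ := one_decides T X hN.to
  refine ⟨c, hc, fun D => ?_⟩
  tfae_have 1 → 2 := (h D).1
  tfae_have 2 → 3 := (h D).2
  tfae_have 3 → 1 := fun h => h _
  tfae_finish

end Pool.Agent.K9h40.OCD
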